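import Pool.Agent.J2L.Z
import Pool.Agent.JT.FT
import Pool.Agent.JGL.Fin

/-!
# [J2F-M] the conjecture modulo `2` and modulo `3` for all elliptic curves over `ℚ(ω)` with `j = 0`, without point of order `l` and with Tamagawa numbers prime to `l`
-/

set_option autoImplicit false

open NumberField IsDedekindDomain
open scoped Classical

namespace J2F

open CF

/-- the conjecture of Birch and Swinnerton-Dyer modulo `l` -/
def ModL (l : ℕ) {K : Type} [Field K] [NumberField K] (W : WeierstrassCurve K) : Prop :=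
  W.IsElliptic ∧ ∃ L : ℂ → ℂ, SBSD2.IsEntireLSeries W L ∧
    ∃ q : ℚ, SBSD2.bsdQuotient W (L 1) = q ∧ 0 ≤ padicValRat l q ∧
      ((q ≠ 0 ∧ padicValRat l q = 0) ↔
        (Finite W.toAffine.Point ∧ ∀ x : SBSD.Sha W, l • x = 0 → x = 0))

/-- the rank part and the `l`-part with rank zero and trivial `l`-primary part -/
def PartL (l : ℕ) {K : Type} [Field K] [NumberField K] (W : WeierstrassCurve K) : Prop :=
  W.IsElliptic ∧ Finite W.toAffine.Point ∧
    ∃ L : ℂ → ℂ, SBSD2.IsEntireLSeries W L ∧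
      analyticOrderAt L 1 = Module.finrank ℤ W.toAffine.Point ∧ L 1 ≠ 0 ∧
      (∀ (x : SBSD.Sha W) (k : ℕ), l ^ k • x = 0 → x = 0) ∧
      ∃ q : ℚ, q ≠ 0 ∧ padicValRat l q = 0 ∧ SBSD2.bsdQuotient W (L 1) = q

theorem no_pow {A : Type*} [AddCommGroup A] {l : ℕ} (h : ∀ x : A, l • x = 0 → x = 0) :
    ∀ (k : ℕ) (x : A), l ^ k • x = 0 → x = 0 := by
  intro k
  induction k with
  | zero => intro x hx; simpa using hx
  | succ k ih =>
    intro x hx
    rw [pow_succ, mul_smul] at hx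
    exact h x (ih _ hx)

theorem ModL.part {l : ℕ} {K : Type} [Field K] [NumberField K] {W : WeierstrassCurve K} (h : ModL l W)
    (hfin : Finite W.toAffine.Point) (hs : ∀ x : SBSD.Sha W, l • x = 0 → x = 0) : PartL l W := by
  obtain ⟨hE, L, hL, q, hq, -, hiff⟩ := h
  obtain ⟨hq0, hv0⟩ := hiff.2 ⟨hfin, hs⟩
  have hL1 : L 1 ≠ 0 := by
    intro h0
    rw [SBSD2.bsdQuotient, h0, zero_mul, zero_mul, zero_div] at hq
    exact hq0 (by exact_mod_cast hq.symm)
  refine ⟨hE, hfin, L, hL, ?_, hL1, fun x k hk => no_pow hs k x hk, q, hq0, hv0, hq⟩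
  rw [((hL.1.analyticAt 1).analyticOrderAt_eq_zero).2 hL1, CM27.finrank_finite]
  rfl

/-- no point of order `l`, no Tamagawa number divisible by `l` -/
def PrimeL (l : ℕ) {K : Type} [Field K] [NumberField K] (E : WeierstrassCurve K) : Prop :=
  (∀ P : E.toAffine.Point, l • P = 0 → P = 0) ∧
    ∀ v : HeightOneSpectrum (𝓞 K), ¬ l ∣ SBSD.tam E v

/-- **The conjecture modulo `2` and modulo `3`.** -/
theorem modL {l : ℕ} (hl : l = 2 ∨ l = 3) (E : WeierstrassCurve KK) [E.IsElliptic] (hj : E.j = 0) (h : PrimeL l E) :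
    ModL l E := by
  rcases hl with rfl | rfl
  · exact JT.modTwo_j (fun D hD => J2L.lval2 hD) E hj _ h.1 h.2
  · exact JGL.modThree E hj h

theorem primeThree_iff {D : CM27.Eis} (hD : JZR.SixthPowerFree D) : JG.ClG D ↔ PrimeL 3 (JD.ED (JD.jK D)) :=
  JGL.clG_iff hD

theorem primeTwo_iff {D : CM27.Eis} (hD : JZR.SixthPowerFree D) : JT.Cl2 D ↔ PrimeL 2 (JD.ED (JD.jK D)) := by
  rw [JT.cl2_iff D (fun a b => Classical.propDecidable (a = b))]
  exact ⟨fun h => ⟨h.2.2.1, h.2.2.2⟩, fun h => ⟨hD.1, hD.2, h.1, h.2⟩⟩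

end J2F
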